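import Pool.Agent.L0h5.TU.Stm
import Pool.Agent.L0h5.AG.Exc

/-!
# All moments for the curves with a subgroup `Z/2 x Z/4`: the definitions and the statements

Project TV (helper5), the case of equality in the criterion of project TU, for linear forms with
known splitting. Every `S3_X` is the statement of one module.
-/

set_option autoImplicit false

namespace Pool.Agent.L0h5.TV

open Finset Polynomial Pool.Agent.W262.RK Pool.Agent.L0h5.TH Pool.Agent.L0h5.MR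
  Pool.Agent.L0h5.TQ Filter
open Pool.Agent.L0h5.TF hiding oo QF
open Pool.Agent.L0h5.AG (gg ps)
open Pool.Agent.L0h5.TT (vvk xxk nd_xv psi LL)
open Pool.Agent.L0h5.TU
open Pool.Agent.W307.RT (Box)

/-- the parity of the scalar product -/
def dp {k : ℕ} (b x : Fin k → Bool) : Bool :=
  decide (Odd (univ.filter (fun m => b m = true ∧ x m = true)).card)

/-- the criterion: for every class `a` that occurs, the number of the types of class `a` is at most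
the number of the types of the other classes, and if they are equal there is a nonsplit type of
class `a` -/
def CritC {J : Type} [Fintype J] (q : J → Fin 3) (ns : J → Bool) : Prop :=
  ∀ a : Fin 3, (∃ j, q j = a) →
    (univ.filter (fun j => q j = a)).card < (univ.filter (fun j => q j ≠ a)).card ∨
    ((univ.filter (fun j => q j = a)).card = (univ.filter (fun j => q j ≠ a)).card ∧
      ∃ j, q j = a ∧ ns j = true)

/-- the sums of `g` twisted by the real characters modulo `4 r`, `r` small, are small, except for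
one of the two characters modulo 4 -/
def Tws (z : ℕ) (g : ℕ → ℝ) (o : Bool) : Prop := ∀ (A : ℕ) (η : ℝ), 0 < η → ∃ C : ℝ, ∀ y, z < y →
  ∀ r : ℕ, Squarefree r → (∀ p : ℕ, p.Prime → p ∣ r → z < p) → (r : ℝ) ≤ (Real.log y) ^ A →
  ∀ τ : Bool, ¬ (r = 1 ∧ τ = o) → |∑ p ∈ PS z y, g p * ps r τ p| ≤ η * LL y + C

/-- the condition on the unlinked sets; `o i`: the coefficients of the index `i` contain the
character modulo 4 -/
def CondU {ι J : Type} [Fintype ι] [DecidableEq ι] [Fintype J] (t : ι → J) (e : ι → ℝ)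
    (L : ι → ι → Bool) (o : ι → Bool) (K δ : ℝ) (U : Finset ι) : Prop :=
  (∑ i ∈ U, e i ≤ K ∧ ∀ j, j ∉ U → ∃ i ∈ U, L i j ≠ L j i) ∨
  (∃ ρ : J → ℝ, (∀ a, 0 < ρ a) ∧ ∑ i ∈ U, e i * ρ (t i) - ∑ a, psi δ (ρ a) < K) ∨
  ∃ (O : Finset ι) (ρ : J → ℝ), (∀ a, 0 < ρ a) ∧ (∀ i ∈ O, ρ (t i) ≤ 1) ∧
    (∀ i ∈ O, ∀ j ∈ O, L i j = false) ∧
    (∀ j, j ∉ U → j ∉ O → ∃ i ∈ U, i ∈ O ∧ L i j ≠ L j i) ∧
    (∀ ε : ι → Bool, ∃ i ∈ U, i ∈ O ∧
      decide (Odd (U.filter (fun j => j ∉ O ∧ L i j = true ∧ ε j = true)).card) ≠ o i) ∧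
    ∀ i ∈ U, i ∈ O → ∑ j ∈ U.erase i, e j * ρ (t j) - ∑ a, psi δ (ρ a) < K

/-- **V1** sums over primes twisted by characters of small modulus (Siegel-Walfisz) -/
def S3_SW : Prop := ∀ (c z : ℕ) (o : Bool), 2 ≤ z → 2 * c + 2 ≤ z →
  Tws z (fun p => x4 o p / ((p : ℝ) - c)) o

/-- **V2** the truncated abstract bound with twists (helper5) -/
def S3_AG : Prop := ∀ (ι J : Type) [Fintype ι] [DecidableEq ι] [Fintype J] [DecidableEq J]
  (t : ι → J) (e : ι → ℝ) (L : ι → ι → Bool) (o : ι → Bool) (c : ℕ) (K δ : ℝ),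
  (∀ i, 0 < e i) → (∀ i, L i i = false) → 0 ≤ K → 0 < δ → δ < 1 →
  (∀ U : Finset ι, (∀ i ∈ U, ∀ j ∈ U, L i j = L j i) → CondU t e L o K δ U) →
  ∃ z0 : ℕ, ∀ z, z0 ≤ z → ∀ (g : ι → ℕ → ℝ) (Cg : ℝ),
    (∀ i p, p.Prime → z < p → |g i p| ≤ (1 / 2) / ((p : ℝ) - c)) →
    (∀ i (y : ℕ), z < y → ∑ p ∈ PS z y, |g i p| ≤ e i * Real.log (Real.log y) + Cg) →
    (∀ i, Tws z (g i) (o i)) →
    ∃ C : ℝ, ∀ y, z < y → ∀ F : (J → ℕ) → ℝ, (∀ n, |F n| ≤ 1) →
      (∀ n, F n ≠ 0 → WinJ δ (LL y) n) →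
      |∑ d ∈ Tup ι z y, ((∏ i, gg g i (d i)) * Sym L (fun _ => 1) d) *
        F (fun a => ∑ i ∈ univ.filter (fun i => t i = a), (d i).primeFactors.card)| ≤
          C * (Real.log y) ^ K

/-- **V3** the unlinked sets -/
def S3_CMB : Prop := ∀ (J : Type) [Fintype J] [DecidableEq J] [Nonempty J] (k B : ℕ)
  (q : J → Fin 3) (ns : J → Bool), 1 ≤ k → 0 < B → CritC q ns →
  ∃ δ0 : ℝ, 0 < δ0 ∧ δ0 ≤ 1 / 2 ∧ ∀ δ, 0 < δ → δ ≤ δ0 →
  ∀ U : Finset (Ij J k B), (∀ i ∈ U, ∀ j ∈ U, Lj q i j = Lj q j i) →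
    CondU (fun i : Ij J k B => i.1) (fun _ => (1 / 2 : ℝ) ^ k / B) (Lj q)
      (fun i => ns i.1 && dp i.2.1 i.2.2.1) (Fintype.card J) δ U

/-- **V4** the local density in characters, exactly -/
def S3_LAM : Prop := ∀ (k : ℕ) (c : Fin 3) (evn : Bool) (κ : Fin 3 → ℤ) (p : ℕ),
  (evn && sg0 p (κ 0)) = false → ∀ v h : Vk k, lstE c.castSucc evn κ p v h =
    ∑ b : Fin k → Bool, ∑ x : Fin k → Bool,
      if vvk c b = v then
        ((1 / 2 : ℝ) ^ k * (if (sg0 p (κ 0) && dp b x) = true then -1 else 1)) * chi (xxk c x) h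
      else 0

open Classical in
/-- **V5** the average over the window (from V1, V2, V3, V4 and `S2_EXP`); linear forms: one root -/
def S3_AVG : Prop := ∀ (J : Type) [Fintype J] [DecidableEq J] [Nonempty J] (q : J → Fin 3)
  (evn ns : J → Bool), (∀ j, (evn j && ns j) = false) → CritC q ns → ∀ (k c : ℕ), 1 ≤ k →
  ∃ δ0 : ℝ, 0 < δ0 ∧ δ0 ≤ 1 / 2 ∧ ∃ z0 : ℕ, 8 ≤ z0 ∧ ∀ z, z0 ≤ z →
    ∀ (kap : J → ℕ → Fin 3 → ℤ) (R : J → ℕ → Finset ℕ),
    (∀ p : ℕ, p.Prime → z < p → ∀ j, (R j p).card = 1 ∧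
      ∀ r ∈ R j p, sg0 p (kap j r 0) = (ns j && decide (p % 4 = 3))) →
    ∃ C : ℝ, 0 ≤ C ∧ ∀ y, z < y →
      ∑ s ∈ (Tup J z y).filter (fun s => WinJ δ0 (LL y) (omJ s)),
        GT (lamR (k := k) q evn kap R) s * ∏ j, gw 1 c (s j) ≤
          C * (Real.log y) ^ (Fintype.card J)

/-- the data of a family of pairs, without the criterion -/
structure Fam0 {J : Type} [Fintype J] [DecidableEq J] (P : J → ℤ[X]) (a : Fin 3 → ℤ) (q : J → Fin 3)
    (m : J → ℕ) (n : ℕ) : Prop where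
  fm : Fm P a
  rel : Fk P a (fun _ => false) q m 0 - Fk P a (fun _ => false) q m 1 =
    Fk P a (fun _ => false) q m 2
  deg : ∀ k, (Fk P a (fun _ => false) q m k).natDegree = 2 * n
  mul : ∀ j, 1 ≤ m j

open Classical in
/-- the bound for the average over the window, for a family -/
def AvB {J : Type} [Fintype J] [DecidableEq J] (P : J → ℤ[X]) (a : Fin 3 → ℤ) (q : J → Fin 3)
    (m : J → ℕ) : Prop := ∀ k : ℕ, 1 ≤ k →
  ∃ δ0 : ℝ, 0 < δ0 ∧ δ0 ≤ 1 / 2 ∧ ∃ z0 : ℕ, 8 ≤ z0 ∧ ∀ z, z0 ≤ z → Gz P a z →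
    ∃ C : ℝ, 0 ≤ C ∧ ∀ y, z < y →
      ∑ s ∈ (Tup J z y).filter (fun s => WinJ δ0 (LL y) (omJ s)),
        GT (lamR (k := k) q (evG m) (kapG P a (fun _ => false) q m) (fun j p => rts (P j) p)) s *
          ∏ j, gw 1 (∑ j, (P j).natDegree) (s j) ≤ C * (Real.log y) ^ (Fintype.card J)

open Classical in
/-- **V6a** all the moments over the typical pairs -/
def S3_MAIN : Prop := ∀ (J : Type) [Fintype J] [DecidableEq J] [Nonempty J] (P : J → ℤ[X])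
  (a : Fin 3 → ℤ) (q : J → Fin 3) (m : J → ℕ) (n : ℕ), Fam0 P a q m n → AvB P a q m →
  ∀ k : ℕ, ∃ C : ℝ, ∀ X : ℕ, 1 ≤ X →
    ∑ t ∈ (TH P X).filter (fun t => ∀ j, Typ1 (P j) X t),
      ((2 : ℝ) ^ Module.finrank ℤ (EAB (hv (Fk P a (fun _ => false) q m 0) t)
        (hv (Fk P a (fun _ => false) q m 1) t)).toAffine.Point) ^ k ≤ C * (X : ℝ) ^ 2

/-- **V6b** the boxes for the forms `M`, `N` (from V6a and `S2_TYP`) -/
def S3_BOX : Prop := ∀ (J : Type) [Fintype J] [DecidableEq J] [Nonempty J] (P : J → ℤ[X])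
  (a : Fin 3 → ℤ) (q : J → Fin 3) (m : J → ℕ) (n : ℕ), Fam0 P a q m n → AvB P a q m →
  ∀ M N : ℤ → ℤ → ℤ,
    (∀ u v : ℤ, hv (Fk P a (fun _ => false) q m 0) (u, v - 2 * u) = -(M u v)) →
    (∀ u v : ℤ, hv (Fk P a (fun _ => false) q m 1) (u, v - 2 * u) = -(N u v)) →
    BXT (BoxM M N) 2 (rkM M N)

/-- **V7** `Z/2 x Z/4` (from V5, V6b, `S2_ASM`) -/
def S3_F24 : Prop := MOM (Pool.Agent.W307.RT.Cv 4) rkS

end Pool.Agent.L0h5.TV
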