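import Pool.Agent.L0h5.TV.Stm
import Pool.Agent.L0h5.TU.A4

/-!
# The truncated abstract bound with twists: one variable
-/

set_option autoImplicit false

namespace Pool.Agent.L0h5.TV

open Finset Pool.Agent.W262.RK Pool.Agent.W262.RK.AT Pool.Agent.L0h5.AG

open Pool.Agent.L0h5.TT (psi LL S_COEF)
open Pool.Agent.L0h5.TU

variable {ι J : Type} [Fintype ι] [DecidableEq ι] [Fintype J] [DecidableEq J]

/-- the twist of the character of the variable `i` -/
def tw (L : ι → ι → Bool) (i : ι) (e : ι → ℕ) : Bool :=
  decide (Odd ((univ.erase i).filter (fun b => L b i = true ∧ e b % 4 = 3)).card)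

/-- as a function of one variable the product of the symbols is a real character -/
lemma XX_tw (L : ι → ι → Bool) (i : ι) (e : ι → ℕ) (he : ∀ b, Odd (e b)) (m : ℕ) (hm : Odd m)
    (hc : ∀ b, b ≠ i → m.Coprime (e b)) : XX L i e m = Jr m (lk L i e) * x4 (tw L i e) m := by
  have key : ∀ s : Finset ι, s ⊆ univ.erase i →
      ∏ b ∈ s, ((if L i b then Jr m (e b) else 1) * (if L b i then Jr (e b) m else 1)) =
        Jr m (∏ b ∈ s.filter (fun b => L i b ≠ L b i), e b) *
          x4 (decide (Odd (s.filter (fun b => L b i = true ∧ e b % 4 = 3)).card)) m := by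
    intro s
    induction s using Finset.induction_on with
    | empty =>
      intro _
      simp [Jr_one_right, x4]
    | insert a s ha ih =>
      intro hs
      have ht := ih ((subset_insert a s).trans hs)
      have hai : a ≠ i := (mem_erase.1 (hs (mem_insert_self a s))).1
      have hP : ∏ b ∈ s.filter (fun b => L i b ≠ L b i), e b ≠ 0 :=
        prod_ne_zero_iff.2 fun b _ => (he b).pos.ne'
      have hpar : decide (Odd ((insert a s).filter (fun b => L b i = true ∧ e b % 4 = 3)).card) =
          xor (L a i && decide (e a % 4 = 3))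
            (decide (Odd (s.filter (fun b => L b i = true ∧ e b % 4 = 3)).card)) := by
        rw [filter_insert]
        by_cases h : L a i = true ∧ e a % 4 = 3
        · rw [if_pos h, card_insert_of_notMem (by simp [ha]), h.1, h.2]
          simp only [Nat.odd_add_one, decide_true, Bool.and_self, Bool.true_xor, decide_not]
        · rw [if_neg h]
          have h2 : (L a i && decide (e a % 4 = 3)) = false := by
            rw [Bool.and_eq_false_iff, decide_eq_false_iff_not]
            rcases h3 : L a i with _ | _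
            · exact Or.inl rfl
            · exact Or.inr fun h4 => h ⟨h3, h4⟩
          rw [h2, Bool.false_xor]
      rw [prod_insert ha, ht, hpar]
      have hfi : (insert a s).filter (fun b => L i b ≠ L b i) =
          if L i a ≠ L a i then insert a (s.filter (fun b => L i b ≠ L b i))
            else s.filter (fun b => L i b ≠ L b i) := filter_insert _ _ _
      rw [hfi]
      have hrec := recip (he a) hm
      have hsq := Jr_sq (hc a hai)
      rw [← x4_mul hm]
      rcases h1 : L i a with _ | _ <;> rcases h2 : L a i with _ | _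
      · simp [x4]
      · simp only [Bool.false_eq_true, if_false, if_true, one_mul, ne_eq, not_false_eq_true,
          Bool.true_and, reduceCtorEq]
        rw [prod_insert (by simp [ha]), Jr_mul_right _ (he a).pos.ne' hP, hrec]
        ring
      · simp only [Bool.false_eq_true, if_false, if_true, mul_one, ne_eq, not_false_eq_true,
          Bool.false_and, reduceCtorEq]
        rw [prod_insert (by simp [ha]), Jr_mul_right _ (he a).pos.ne' hP]
        simp only [x4, Bool.false_eq_true, if_false]
        ring
      · simp only [if_true, ne_eq, not_true_eq_false, if_false, Bool.true_and]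
        rw [hrec]
        linear_combination (x4 (decide (e a % 4 = 3)) m *
          (Jr m (∏ b ∈ s.filter (fun b => L i b ≠ L b i), e b) *
            x4 (decide (Odd (s.filter (fun b => L b i = true ∧ e b % 4 = 3)).card)) m)) * hsq
  exact key _ (Subset.refl _)

/-- the summand as a function of one variable, with the explicit character -/
lemma HG_tw {g : ι → ℕ → ℝ} {L : ι → ι → Bool} {z y : ℕ} (i : ι)
    (hL : L i i = false) (hz : 2 ≤ z) {e : ι → ℕ} (he : ∀ b, e b ∈ (PP z y).divisors) :
    (∀ m, HG g L (Function.update e i m) = 0) ∨ ∀ m ∈ (PP z y).divisors,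
      HG g L (Function.update e i m) =
        if m.Coprime (∏ b ∈ univ.erase i, e b) then
          ((∏ b ∈ univ.erase i, gg g b (e b)) * RR L (fun _ => 1) i e) *
            (gg g i m * (Jr m (lk L i e) * x4 (tw L i e) m)) else 0 := by
  classical
  rcases HG_update (g := g) i hL hz he with h | ⟨hcop, t, ht⟩
  · exact Or.inl h
  · refine Or.inr fun m hm => ?_
    have hiff : m.Coprime (∏ b ∈ univ.erase i, e b) ↔ ∀ b, b ≠ i → m.Coprime (e b) := by
      rw [Nat.coprime_prod_right_iff]
      simp
    have hiff2 : (∀ a b, a ≠ b → (Function.update e i m a).Coprime (Function.update e i m b)) ↔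
        ∀ b, b ≠ i → m.Coprime (e b) := by
      constructor
      · intro h b hb
        have := h i b (Ne.symm hb)
        rwa [Function.update_self, Function.update_of_ne hb] at this
      · intro h a b hab
        by_cases ha : a = i
        · subst ha
          rw [Function.update_self, Function.update_of_ne (Ne.symm hab)]
          exact h b (Ne.symm hab)
        · by_cases hb : b = i
          · subst hb
            rw [Function.update_self, Function.update_of_ne ha]
            exact (h a ha).symm
          · rw [Function.update_of_ne ha, Function.update_of_ne hb]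
            exact hcop a b ha hb hab
    unfold HG
    by_cases h : ∀ b, b ≠ i → m.Coprime (e b)
    · rw [if_pos (hiff2.2 h), if_pos (hiff.2 h), sym_update L _ i hL,
        XX_tw L i e (fun b => dv_odd hz (he b)) m (dv_odd hz hm) h,
        ← mul_prod_erase univ _ (mem_univ i), Function.update_self, Jr_one_left']
      have : ∏ b ∈ univ.erase i, gg g b (Function.update e i m b) =
          ∏ b ∈ univ.erase i, gg g b (e b) := by
        apply prod_congr rfl
        intro b hb
        rw [Function.update_of_ne (mem_erase.1 hb).1]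
      rw [this]
      ring
    · rw [if_neg (fun h' => h (hiff2.1 h')), if_neg (fun h' => h (hiff.1 h'))]

variable {g : ι → ℕ → ℝ} {e : ι → ℝ} {L : ι → ι → Bool} {c z : ℕ} {C : ℝ} {t : ι → J}
  {F : (J → ℕ) → ℝ}

/-- the sum over one large variable whose character is good -/
lemma innerT (hCO : S_COEF) (hB : Bw g e c z C) (hF : ∀ n, |F n| ≤ 1) {N : ℕ}
    (hN : ∀ n, F n ≠ 0 → ∀ a, n a ≤ N) (i : ι) (hL : L i i = false) {y V Y : ℕ} (hy : z < y)
    (hV : 2 ≤ V) (hVY : V ≤ Y) {d : ι → ℕ} (hd : ∀ b, d b ∈ (PP z y).divisors) {B : ℝ}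
    (hb : |∑ p ∈ PS z y, g i p * (Jr p (lk L i d) * x4 (tw L i d) p)| ≤ B) :
    |∑ m ∈ (PP z y).divisors.filter (fun m => V < m ∧ m ≤ Y),
        HF g L t F (Function.update d i m)| ≤
      (∏ b ∈ univ.erase i, ah g b (d b)) *
        ((N + 1) * Real.exp (B + 1) + C * Real.log V +
          C * Real.exp (-(Real.log Y / Real.log y)) * (Real.log y) ^ 2) := by
  set φ : ℕ → ℝ := fun u => F (fun a => cnt t (Function.update d i 1) a +
    if t i = a then u else 0) with hφd
  have hφ : ∀ u, |φ u| ≤ 1 := fun u => hF _
  have hφN : ∀ u, N < u → φ u = 0 := by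
    intro u hu
    by_contra hne
    have := hN _ hne (t i)
    simp only [if_true] at this
    omega
  have hHF : ∀ m, HF g L t F (Function.update d i m) =
      HG g L (Function.update d i m) * φ m.primeFactors.card := by
    intro m
    unfold HF
    rw [cnt_update]
  have hC0 : 0 ≤ C := zero_le_one.trans hB.C1
  have hV' : 0 ≤ Real.log V := Real.log_natCast_nonneg V
  have hP0 : 0 ≤ ∏ b ∈ univ.erase i, ah g b (d b) := prod_nonneg fun b _ => ah_nonneg _ _ _
  have hB0 : 0 ≤ (N + 1) * Real.exp (B + 1) + C * Real.log V +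
      C * Real.exp (-(Real.log Y / Real.log y)) * (Real.log y) ^ 2 := by positivity
  simp only [hHF]
  rcases HG_tw (g := g) i hL hB.z2 hd with h | ht
  · rw [sum_eq_zero fun m _ => by rw [h m, zero_mul], abs_zero]
    exact mul_nonneg hP0 hB0
  · set R := ∏ b ∈ univ.erase i, d b with hR
    set P := ∏ b ∈ univ.erase i, gg g b (d b) with hP
    set f : ℕ → ℝ := fun m => gg g i m * (Jr m (lk L i d) * x4 (tw L i d) m) * φ m.primeFactors.card
      with hf
    have hRne : R ≠ 0 := prod_ne_zero_iff.2 fun b _ => dv_ne_zero (hd b)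
    have h1 : ∑ m ∈ (PP z y).divisors.filter (fun m => V < m ∧ m ≤ Y),
        HG g L (Function.update d i m) * φ m.primeFactors.card =
        P * RR L (fun _ => 1) i d * ∑ m ∈ ((PP z y).divisors.filter (fun m => m.Coprime R)).filter
          (fun m => V < m ∧ m ≤ Y), f m := by
      rw [filter_filter, mul_sum]
      have h2 : (PP z y).divisors.filter (fun m => m.Coprime R ∧ V < m ∧ m ≤ Y) =
          ((PP z y).divisors.filter (fun m => V < m ∧ m ≤ Y)).filter (fun m => m.Coprime R) := by
        rw [filter_filter]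
        apply filter_congr
        intro m _
        tauto
      rw [h2]
      symm
      rw [sum_filter]
      apply sum_congr rfl
      intro m hm
      rw [ht m (mem_filter.1 hm).1]
      split_ifs
      · rw [hf]
        ring
      · rw [zero_mul]
    set D := (PP z y).divisors.filter (fun m => m.Coprime R) with hD
    have hDs : D ⊆ (PP z y).divisors := filter_subset _ _
    have h3 : ∑ m ∈ D.filter (fun m => V < m ∧ m ≤ Y), f m =
        ∑ m ∈ D, f m - ∑ m ∈ D.filter (fun m => m ≤ V), f m - ∑ m ∈ D.filter (fun m => Y < m), f m := by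
      have e1 : ∑ m ∈ D.filter (fun m => V < m ∧ m ≤ Y), f m + ∑ m ∈ D.filter (fun m => Y < m), f m =
          ∑ m ∈ D.filter (fun m => ¬ m ≤ V), f m := by
        rw [← sum_union]
        · apply sum_congr _ (fun _ _ => rfl)
          ext m
          simp only [mem_union, mem_filter]
          constructor
          · rintro (⟨h1, h2, h3⟩ | ⟨h1, h2⟩)
            · exact ⟨h1, by omega⟩
            · exact ⟨h1, by omega⟩
          · rintro ⟨h1, h2⟩
            by_cases h3 : m ≤ Y
            · exact Or.inl ⟨h1, by omega, h3⟩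
            · exact Or.inr ⟨h1, by omega⟩
        · rw [disjoint_filter]
          intro m _ h1 h2
          omega
      have e2 := sum_filter_add_sum_filter_not D (fun m => m ≤ V) f
      linarith
    have hfa : ∀ m ∈ (PP z y).divisors, |f m| ≤ ah g i m := by
      intro m hm
      rw [hf]
      simp only
      rw [mul_assoc, abs_mul]
      have : |Jr m (lk L i d) * x4 (tw L i d) m * φ m.primeFactors.card| ≤ 1 := by
        rw [abs_mul, abs_mul]
        exact mul_le_one₀ (mul_le_one₀ (abs_Jr_le _ _) (abs_nonneg _) (abs_x4_le _ _))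
          (abs_nonneg _) (hφ _)
      calc |gg g i m| * |Jr m (lk L i d) * x4 (tw L i d) m * φ m.primeFactors.card| ≤ |gg g i m| * 1 :=
            mul_le_mul_of_nonneg_left this (abs_nonneg _)
        _ ≤ ah g i m := by rw [mul_one]; exact abs_le_ah g i m
    have h4 : |∑ m ∈ D.filter (fun m => m ≤ V), f m| ≤ C * Real.log V := by
      refine (abs_sum_le_sum_abs _ _).trans ?_
      refine le_trans ?_ (hB.F2 i y V hy hV)
      calc ∑ m ∈ D.filter (fun m => m ≤ V), |f m| ≤ ∑ m ∈ D.filter (fun m => m ≤ V),
            ah g i m := sum_le_sum fun m hm => hfa m (hDs (mem_filter.1 hm).1)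
        _ ≤ _ := sum_le_sum_of_subset_of_nonneg (filter_subset_filter _ hDs)
          fun m _ _ => ah_nonneg _ _ _
    have h5 : |∑ m ∈ D.filter (fun m => Y < m), f m| ≤
        C * Real.exp (-(Real.log Y / Real.log y)) * (Real.log y) ^ 2 := by
      refine (abs_sum_le_sum_abs _ _).trans ?_
      refine le_trans ?_ (hB.F3 i y Y hy (by omega))
      calc ∑ m ∈ D.filter (fun m => Y < m), |f m| ≤ ∑ m ∈ D.filter (fun m => Y < m),
            ah g i m := sum_le_sum fun m hm => hfa m (hDs (mem_filter.1 hm).1)
        _ ≤ _ := sum_le_sum_of_subset_of_nonneg (filter_subset_filter _ hDs)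
          fun m _ _ => ah_nonneg _ _ _
    have h6 : |∑ m ∈ D, f m| ≤ (N + 1) * (Real.exp (B + 1) * hh R) :=
      eulerF hCO hB i (tw L i d) hRne hb hφ hφN
    have h7 : hh R ≤ ∏ b ∈ univ.erase i, hh (d b) :=
      hh_prod_le _ _ fun b _ => dv_ne_zero (hd b)
    have h8 : (1 : ℝ) ≤ ∏ b ∈ univ.erase i, hh (d b) := by
      calc (1 : ℝ) = ∏ b ∈ univ.erase i, (1 : ℝ) := by simp
        _ ≤ _ := prod_le_prod (fun _ _ => zero_le_one) fun b _ => one_le_hh _
    have hRR := abs_RR_le L (fun _ => 1) i d
    have hah : ∏ b ∈ univ.erase i, ah g b (d b) = |P| * ∏ b ∈ univ.erase i, hh (d b) := by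
      unfold ah
      rw [prod_mul_distrib, hP, abs_prod]
    rw [h1, abs_mul, abs_mul, hah]
    set H := ∏ b ∈ univ.erase i, hh (d b) with hH
    have h9 : |∑ m ∈ D.filter (fun m => V < m ∧ m ≤ Y), f m| ≤
        H * ((N + 1) * Real.exp (B + 1) + C * Real.log V +
          C * Real.exp (-(Real.log Y / Real.log y)) * (Real.log y) ^ 2) := by
      rw [h3]
      have a1 : |∑ m ∈ D, f m - ∑ m ∈ D.filter (fun m => m ≤ V), f m -
          ∑ m ∈ D.filter (fun m => Y < m), f m| ≤ |∑ m ∈ D, f m| +
          |∑ m ∈ D.filter (fun m => m ≤ V), f m| + |∑ m ∈ D.filter (fun m => Y < m), f m| := by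
        refine (abs_sub _ _).trans ?_
        have := abs_sub (∑ m ∈ D, f m) (∑ m ∈ D.filter (fun m => m ≤ V), f m)
        linarith
      have b1 : 0 ≤ (N + 1) * Real.exp (B + 1) := by positivity
      have b2 : 0 ≤ C * Real.log V := by positivity
      have b3 : 0 ≤ C * Real.exp (-(Real.log Y / Real.log y)) * (Real.log y) ^ 2 := by positivity
      have a2 : |∑ m ∈ D, f m| ≤ H * ((N + 1) * Real.exp (B + 1)) := by
        refine h6.trans ?_
        rw [← mul_assoc, mul_comm]
        exact mul_le_mul_of_nonneg_right h7 b1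
      have a3 := le_mul_of_one_le_left b2 h8
      have a4 := le_mul_of_one_le_left b3 h8
      calc _ ≤ _ := a1
        _ ≤ H * ((N + 1) * Real.exp (B + 1)) + H * (C * Real.log V) +
            H * (C * Real.exp (-(Real.log Y / Real.log y)) * (Real.log y) ^ 2) := by linarith
        _ = _ := by ring
    calc |P| * |RR L (fun _ => 1) i d| * |∑ m ∈ D.filter (fun m => V < m ∧ m ≤ Y), f m|
        ≤ |P| * 1 * (H * ((N + 1) * Real.exp (B + 1) + C * Real.log V +
          C * Real.exp (-(Real.log Y / Real.log y)) * (Real.log y) ^ 2)) := by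
          apply mul_le_mul (mul_le_mul_of_nonneg_left hRR (abs_nonneg _)) h9 (abs_nonneg _)
          positivity
      _ = _ := by ring


/-- the same with the Rankin weights -/
lemma inner_rho (hCO : S_COEF) (hB : Bw g e c z C) (hF : ∀ n, |F n| ≤ 1) {N : ℕ}
    (hN : ∀ n, F n ≠ 0 → ∀ a, n a ≤ N) (i : ι) (hL : L i i = false) {y V Y : ℕ} (hy : z < y)
    (hV : 2 ≤ V) (hVY : V ≤ Y) {δ : ℝ} (hδ0 : 0 < δ) (hδ1 : δ < 1) {ρ : J → ℝ}
    (hρ : ∀ a, 0 < ρ a) (hρi : ρ (t i) ≤ 1) (hW : ∀ n, F n ≠ 0 → WinJ δ (LL y) n)
    {d : ι → ℕ} (hd : ∀ b, d b ∈ (PP z y).divisors) {B : ℝ}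
    (hb : |∑ p ∈ PS z y, g i p * (Jr p (lk L i d) * x4 (tw L i d) p)| ≤ B) :
    |∑ m ∈ (PP z y).divisors.filter (fun m => V < m ∧ m ≤ Y),
        HF g L t F (Function.update d i m)| ≤
      Real.exp (-(LL y * ∑ a, psi δ (ρ a))) *
      ((∏ b ∈ univ.erase i, (ah g b (d b) * ρ (t b) ^ (d b).primeFactors.card)) *
        ((N + 1) * Real.exp (B + 1) + C * Real.log V +
          C * Real.exp (-(Real.log Y / Real.log y)) * (Real.log y) ^ 2)) := by
  classical
  obtain ⟨c0, hc0⟩ : ∃ c0 : ℝ, c0 = Real.exp (-(LL y * ∑ a, psi δ (ρ a))) *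
    ∏ b ∈ univ.erase i, ρ (t b) ^ (d b).primeFactors.card := ⟨_, rfl⟩
  have hc0p : 0 < c0 := by
    rw [hc0]
    exact mul_pos (Real.exp_pos _) (prod_pos fun b _ => pow_pos (hρ _) _)
  obtain ⟨F', hF'⟩ : ∃ F' : (J → ℕ) → ℝ, F' = fun n => if |F n| ≤ c0 then F n / c0 else 0 :=
    ⟨_, rfl⟩
  have hF1 : ∀ n, |F' n| ≤ 1 := by
    intro n
    rw [hF']
    simp only
    split_ifs with h
    · rw [abs_div, abs_of_pos hc0p, div_le_one hc0p]
      exact h
    · simp
  have hN' : ∀ n, F' n ≠ 0 → ∀ a, n a ≤ N := by
    intro n hn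
    refine hN n fun h0 => hn ?_
    rw [hF']
    simp only [h0]
    simp
  have hkey : ∀ m, HF g L t F (Function.update d i m) =
      c0 * HF g L t F' (Function.update d i m) := by
    intro m
    have h1 : |F (cnt t (Function.update d i m))| ≤ c0 := by
      by_cases h0 : F (cnt t (Function.update d i m)) = 0
      · rw [h0, abs_zero]
        exact hc0p.le
      · have hw := win_le hδ0 hδ1 (hW _ h0) hρ
        rw [prod_cnt, ← mul_prod_erase univ _ (mem_univ i), Function.update_self] at hw
        have h2 : ∏ b ∈ univ.erase i, ρ (t b) ^ (Function.update d i m b).primeFactors.card =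
            ∏ b ∈ univ.erase i, ρ (t b) ^ (d b).primeFactors.card := by
          refine prod_congr rfl fun b hb => ?_
          rw [Function.update_of_ne (mem_erase.1 hb).1]
        rw [h2] at hw
        have h3 : ρ (t i) ^ m.primeFactors.card ≤ 1 := pow_le_one₀ (hρ _).le hρi
        have h4 : 0 < ∏ b ∈ univ.erase i, ρ (t b) ^ (d b).primeFactors.card :=
          prod_pos fun b _ => pow_pos (hρ _) _
        refine (hF _).trans (hw.trans ?_)
        rw [hc0]
        refine mul_le_mul_of_nonneg_left ?_ (Real.exp_pos _).le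
        exact mul_le_of_le_one_left h4.le h3
    unfold HF
    rw [hF']
    simp only [if_pos h1]
    field_simp
  simp only [hkey]
  rw [← mul_sum, abs_mul, abs_of_pos hc0p]
  refine (mul_le_mul_of_nonneg_left (innerT hCO hB hF1 hN' i hL hy hV hVY hd hb) hc0p.le).trans
    (le_of_eq ?_)
  rw [hc0, prod_mul_distrib]
  ring

end Pool.Agent.L0h5.TV
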