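import Pool.Agent.L0h5.TV.B1

/-!
# The truncated abstract bound with twists: the case with twists
-/

set_option autoImplicit false
set_option linter.unusedSectionVars false

namespace Pool.Agent.L0h5.TV

open Finset Pool.Agent.W262.RK Pool.Agent.W262.RK.AT Pool.Agent.L0h5.AG

open Pool.Agent.L0h5.TT (psi LL S_COEF)
open Pool.Agent.L0h5.TU

variable {ι J : Type} [Fintype ι] [DecidableEq ι] [Fintype J] [DecidableEq J]

variable {g : ι → ℕ → ℝ} {e : ι → ℝ} {L : ι → ι → Bool} {c z : ℕ} {C : ℝ} {t : ι → J}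
  {F : (J → ℕ) → ℝ}

omit [Fintype ι] [DecidableEq ι] in
/-- the twisted sums for the moduli at most `V ^ n` -/
lemma tws_V {o : Bool} {i : ι} (hz : 2 ≤ z) {ei Cg : ℝ} (he : 0 < ei)
    (hg2 : ∀ y : ℕ, z < y → ∑ p ∈ PS z y, |g i p| ≤ ei * Real.log (Real.log y) + Cg)
    (hT : Tws z (g i) o) (A n : ℕ) {η : ℝ} (hη : 0 < η) : ∃ C2 : ℝ, 0 ≤ C2 ∧ ∀ y, z < y →
      ∀ r : ℕ, Squarefree r → (∀ p : ℕ, p.Prime → p ∣ r → z < p) →
      r ≤ VV A (Real.log y) ^ n → ∀ τ : Bool, ¬ (r = 1 ∧ τ = o) →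
      |∑ p ∈ PS z y, g i p * (Jr p r * x4 τ p)| ≤ η * LL y + C2 := by
  obtain ⟨C1, hC1⟩ := hT (A * n + 1) η hη
  have h5 : 0 ≤ Real.log ((5 : ℝ) ^ n) := Real.log_nonneg (one_le_pow₀ (by norm_num))
  refine ⟨|C1| + ei * Real.log ((5 : ℝ) ^ n) + |Cg|, by positivity, fun y hy r hr1 hr2 hr3 τ hτ => ?_⟩
  have hly := one_le_log hz hy
  have hly0 : 0 < Real.log y := by linarith
  have hLL : 0 ≤ LL y := Real.log_nonneg hly
  have a1 := abs_nonneg C1
  have a2 := abs_nonneg Cg
  have a3 := mul_nonneg he.le h5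
  have a4 := mul_nonneg hη.le hLL
  rcases le_or_gt ((5 : ℝ) ^ n) (Real.log y) with h | h
  · have h1 := hC1 y hy r hr1 hr2 (by
      have h2 : (r : ℝ) ≤ (VV A (Real.log y) : ℝ) ^ n := by exact_mod_cast hr3
      calc (r : ℝ) ≤ (VV A (Real.log y) : ℝ) ^ n := h2
        _ ≤ (5 * (Real.log y) ^ A) ^ n := pow_le_pow_left₀ (Nat.cast_nonneg _) (VV_le hly) n
        _ = 5 ^ n * (Real.log y) ^ (A * n) := by rw [mul_pow, ← pow_mul]
        _ ≤ Real.log y * (Real.log y) ^ (A * n) := mul_le_mul_of_nonneg_right h (by positivity)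
        _ = _ := by rw [pow_succ]; ring) τ hτ
    have h2 : |∑ p ∈ PS z y, g i p * (Jr p r * x4 τ p)| ≤ η * LL y + C1 := h1
    have := le_abs_self C1
    linarith
  · have h1 : |∑ p ∈ PS z y, g i p * (Jr p r * x4 τ p)| ≤ ∑ p ∈ PS z y, |g i p| := by
      refine (abs_sum_le_sum_abs _ _).trans (sum_le_sum fun p _ => ?_)
      rw [abs_mul, abs_mul]
      exact mul_le_of_le_one_right (abs_nonneg _)
        (mul_le_one₀ (abs_Jr_le _ _) (abs_nonneg _) (abs_x4_le _ _))
    have h2 := hg2 y hy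
    have h3 : Real.log (Real.log y) ≤ Real.log ((5 : ℝ) ^ n) := Real.log_le_log hly0 h.le
    have h4 := mul_le_mul_of_nonneg_left h3 he.le
    have := le_abs_self Cg
    linarith

/-- there is a large variable with a good character -/
lemma exists_good {o : ι → Bool} (hL : ∀ i, L i i = false) {π : ι → Fin 4} (h3 : ∀ k, π k ≠ 3)
    (hun : ∀ i j, π i = 2 → π j = 2 → L i j = L j i) {O : Finset ι}
    (hOO : ∀ i ∈ O, ∀ j ∈ O, L i j = false)
    (hlink : ∀ j, π j ≠ 2 → j ∉ O → ∃ i, π i = 2 ∧ i ∈ O ∧ L i j ≠ L j i)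
    (htw : ∀ ε : ι → Bool, ∃ i, π i = 2 ∧ i ∈ O ∧
      decide (Odd ((univ.filter (fun k => π k = 2)).filter
        (fun j => j ∉ O ∧ L i j = true ∧ ε j = true)).card) ≠ o i)
    {d : ι → ℕ} (hd0 : ∀ b, π b = 0 → d b = 1) (hd1 : ∀ b, b ∉ O → π b = 1 → 1 < d b)
    (hdO : ∀ b ∈ O, d b = 1) :
    ∃ i, π i = 2 ∧ i ∈ O ∧ ¬ (lk L i d = 1 ∧ tw L i d = o i) := by
  classical
  by_cases hex : ∃ b, b ∉ O ∧ π b = 1
  · obtain ⟨b, hbO, hb1⟩ := hex
    obtain ⟨i, hi2, hiO, hil⟩ := hlink b (by rw [hb1]; decide) hbO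
    refine ⟨i, hi2, hiO, fun h => ?_⟩
    have hbi : b ≠ i := by
      rintro rfl
      exact hil rfl
    have h1 : d b ∣ lk L i d := by
      unfold lk
      exact dvd_prod_of_mem _ (mem_filter.2 ⟨mem_erase.2 ⟨hbi, mem_univ b⟩, hil⟩)
    rw [h.1, Nat.dvd_one] at h1
    have := hd1 b hbO hb1
    omega
  · push Not at hex
    obtain ⟨i, hi2, hiO, hi⟩ := htw (fun b => decide (d b % 4 = 3))
    refine ⟨i, hi2, hiO, fun h => hi ?_⟩
    rw [← h.2]
    unfold tw
    congr 3
    ext b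
    simp only [mem_filter, mem_univ, true_and, mem_erase, and_true, decide_eq_true_eq]
    constructor
    · rintro ⟨hb2, hbO, hLb, hd4⟩
      refine ⟨?_, ?_, hd4⟩
      · rintro rfl
        exact hbO hiO
      · rw [← hun i b hi2 hb2]
        exact hLb
    · rintro ⟨hbi, hLb, hd4⟩
      have hbO : b ∉ O := by
        intro hb
        rw [hOO b hb i hiO] at hLb
        exact absurd hLb (by decide)
      have hb2 : π b = 2 := by
        have k0 : π b ≠ 0 := by
          intro hb0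
          rw [hd0 b hb0] at hd4
          omega
        have k1 : π b ≠ 1 := hex b hbO
        have k3 := h3 b
        revert k0 k1 k3
        generalize π b = r
        revert r
        decide
      refine ⟨hb2, hbO, ?_, hd4⟩
      rw [hun i b hi2 hb2]
      exact hLb

/-- the sum over the variables of `O` -/
lemma osc_inner (hCO : S_COEF) (hB : Bw g e c z C) (hF : ∀ n, |F n| ≤ 1) {N : ℕ}
    (hN : ∀ n, F n ≠ 0 → ∀ a, n a ≤ N) (hL : ∀ i, L i i = false) {A y : ℕ} (hy : z < y)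
    {δ : ℝ} (hδ0 : 0 < δ) (hδ1 : δ < 1) {ρ : J → ℝ} (hρ : ∀ a, 0 < ρ a)
    (hW : ∀ n, F n ≠ 0 → WinJ δ (LL y) n)
    {π : ι → Fin 4} (h3 : ∀ k, π k ≠ 3)
    (hun : ∀ i j, π i = 2 → π j = 2 → L i j = L j i) {O : Finset ι}
    (hOO : ∀ i ∈ O, ∀ j ∈ O, L i j = false)
    {d : ι → ℕ} (hd : ∀ b, d b ∈ (PP z y).divisors)
    (hdV : ∀ b, b ∉ O → π b ≠ 2 → d b ≤ VV A (Real.log y))
    (hcp : ∀ i j, i ≠ j → (d i).Coprime (d j)) {i : ι} (hi2 : π i = 2) (hiO : i ∈ O)
    (hρi : ρ (t i) ≤ 1) {o : Bool} (hgood : ¬ (lk L i d = 1 ∧ tw L i d = o)) {B : ℝ}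
    (hB2 : ∀ r : ℕ, Squarefree r → (∀ p : ℕ, p.Prime → p ∣ r → z < p) →
      r ≤ VV A (Real.log y) ^ (Fintype.card ι) → ∀ τ : Bool, ¬ (r = 1 ∧ τ = o) →
      |∑ p ∈ PS z y, g i p * (Jr p r * x4 τ p)| ≤ B) :
    |∑ x ∈ Fintype.piFinset (fun b => if b ∈ O then
        cell z y (VV A (Real.log y)) (YY A (Real.log y)) (π b) else {d b}), HF g L t F x| ≤
      Real.exp (-(LL y * ∑ a, psi δ (ρ a))) *
      ((∏ b ∈ univ.erase i, (if b ∈ O then
        ∑ m ∈ cell z y (VV A (Real.log y)) (YY A (Real.log y)) (π b),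
          (ah g b m * ρ (t b) ^ m.primeFactors.card) else
          (ah g b (d b) * ρ (t b) ^ (d b).primeFactors.card))) *
        ((N + 1) * Real.exp (B + 1) + C * Real.log (VV A (Real.log y)) +
          C * Real.exp (-(Real.log (YY A (Real.log y)) / Real.log y)) * (Real.log y) ^ 2)) := by
  classical
  have hC0 : 0 ≤ C := zero_le_one.trans hB.C1
  obtain ⟨V, hV⟩ : ∃ V : ℕ, V = VV A (Real.log y) := ⟨_, rfl⟩
  obtain ⟨Y, hY⟩ : ∃ Y : ℕ, Y = YY A (Real.log y) := ⟨_, rfl⟩
  have hV3 : 3 ≤ V := by rw [hV]; exact three_le_VV A _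
  have hVY : V ≤ Y := by rw [hV, hY]; exact VV_le_YY A _
  rw [← hV] at hB2 ⊢
  rw [← hV] at hdV
  rw [← hY]
  obtain ⟨s, hs⟩ : ∃ s : ι → Finset ℕ, s = fun b => if b ∈ O then cell z y V Y (π b) else {d b} :=
    ⟨_, rfl⟩
  rw [← hs]
  have hsi : s i = (PP z y).divisors.filter (fun m => V < m ∧ m ≤ Y) := by
    rw [hs]
    simp only [if_pos hiO, hi2]
    exact cell_two (by omega)
  have hBr0 : 0 ≤ (N + 1) * Real.exp (B + 1) + C * Real.log V +
      C * Real.exp (-(Real.log Y / Real.log y)) * (Real.log y) ^ 2 := by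
    have : 0 ≤ Real.log (V : ℝ) := Real.log_natCast_nonneg V
    positivity
  -- the modulus
  have hlkb : ∀ b ∈ (univ.erase i).filter (fun b => L i b ≠ L b i), b ∉ O ∧ d b ≤ V := by
    intro b hb
    rw [mem_filter] at hb
    have hbO : b ∉ O := by
      intro hbO
      exact hb.2 (by rw [hOO i hiO b hbO, hOO b hbO i hiO])
    exact ⟨hbO, hdV b hbO fun h => hb.2 (hun i b hi2 h)⟩
  have hlk1 : Squarefree (lk L i d) := by
    unfold lk
    exact squarefree_prod _ _ (fun b _ => dv_squarefree (hd b)) fun a _ b _ hab => hcp a b hab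
  have hlk2 : lk L i d ≤ V ^ Fintype.card ι := by
    unfold lk
    calc ∏ b ∈ (univ.erase i).filter (fun b => L i b ≠ L b i), d b
        ≤ ∏ b ∈ (univ.erase i).filter (fun b => L i b ≠ L b i), V :=
          prod_le_prod' fun b hb => (hlkb b hb).2
      _ = V ^ ((univ.erase i).filter (fun b => L i b ≠ L b i)).card := by rw [prod_const]
      _ ≤ V ^ Fintype.card ι := Nat.pow_le_pow_right (by omega)
          ((card_le_card (subset_univ _)).trans (le_of_eq card_univ))
  have hsum := hB2 (lk L i d) hlk1 (fun p hp hpd => lk_primes hd hp hpd) hlk2 (tw L i d) hgood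
  rw [sum_update s i]
  refine (abs_sum_le_sum_abs _ _).trans ?_
  have hstep : ∀ x ∈ Fintype.piFinset (Function.update s i {1}),
      |∑ m ∈ s i, HF g L t F (Function.update x i m)| ≤
      Real.exp (-(LL y * ∑ a, psi δ (ρ a))) *
      ((∏ b ∈ univ.erase i, (ah g b (x b) * ρ (t b) ^ (x b).primeFactors.card)) *
        ((N + 1) * Real.exp (B + 1) + C * Real.log V +
          C * Real.exp (-(Real.log Y / Real.log y)) * (Real.log y) ^ 2)) := by
    intro x hx
    have hxb : ∀ b, b ∉ O → x b = d b := by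
      intro b hb
      have h1 := Fintype.mem_piFinset.1 hx b
      have hbi : b ≠ i := by
        rintro rfl
        exact hb hiO
      rw [Function.update_of_ne hbi, hs] at h1
      simpa only [if_neg hb, mem_singleton] using h1
    have hxd : ∀ b, x b ∈ (PP z y).divisors := by
      intro b
      have h1 := Fintype.mem_piFinset.1 hx b
      by_cases hbi : b = i
      · subst hbi
        rw [Function.update_self, mem_singleton] at h1
        rw [h1]
        exact one_mem_dv z y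
      · rw [Function.update_of_ne hbi, hs] at h1
        by_cases hbO : b ∈ O
        · simp only [if_pos hbO] at h1
          exact cell_sub _ _ _ _ _ h1
        · rw [hxb b hbO]
          exact hd b
    have hlk : lk L i x = lk L i d := by
      unfold lk
      exact prod_congr rfl fun b hb => hxb b (hlkb b hb).1
    have htwx : tw L i x = tw L i d := by
      unfold tw
      congr 3
      apply filter_congr
      intro b hb
      by_cases hbO : b ∈ O
      · rw [hOO b hbO i hiO]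
        simp
      · rw [hxb b hbO]
    rw [hsi]
    refine inner_rho hCO hB hF hN i (hL i) hy (by omega) hVY hδ0 hδ1 hρ hρi hW hxd ?_
    rw [hlk, htwx]
    exact hsum
  refine (sum_le_sum hstep).trans ?_
  rw [← mul_sum, ← sum_mul, sum_others i s (fun b m => ah g b m * ρ (t b) ^ m.primeFactors.card)]
  apply le_of_eq
  congr 2
  refine prod_congr rfl fun b _ => ?_
  rw [hs]
  simp only
  split_ifs
  · rfl
  · rw [sum_singleton]

omit [DecidableEq J] in
/-- the sum over the other variables -/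
lemma osc_outer {O : Finset ι} {i : ι} (hiO : i ∈ O) (s : ι → Finset ℕ) (T : ι → ℝ)
    (f : ι → ℕ → ℝ) (hT : ∀ b, ∑ m ∈ s b, f b m = T b) :
    ∑ d ∈ Fintype.piFinset (fun b => if b ∈ O then {1} else s b),
      ∏ b ∈ univ.erase i, (if b ∈ O then T b else f b (d b)) = ∏ b ∈ univ.erase i, T b := by
  classical
  have h1 : ∀ d : ι → ℕ, ∏ b ∈ univ.erase i, (if b ∈ O then T b else f b (d b)) =
      ∏ b, (if b = i then 1 else if b ∈ O then T b else f b (d b)) := by
    intro d
    rw [← mul_prod_erase univ _ (mem_univ i), if_pos rfl, one_mul]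
    refine prod_congr rfl fun b hb => ?_
    rw [if_neg (mem_erase.1 hb).1]
  rw [sum_congr rfl fun d _ => h1 d, ← prod_univ_sum (fun b => if b ∈ O then {1} else s b)
    (fun b m => if b = i then 1 else if b ∈ O then T b else f b m),
    ← mul_prod_erase univ _ (mem_univ i)]
  simp only [if_pos hiO, if_true, sum_const, card_singleton, one_smul, one_mul]
  refine prod_congr rfl fun b hb => ?_
  simp only [if_neg (mem_erase.1 hb).1]
  by_cases hbO : b ∈ O
  · simp only [if_pos hbO, sum_const, card_singleton, one_smul]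
  · simp only [if_neg hbO]
    exact hT b

end Pool.Agent.L0h5.TV
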