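import Pool.Agent.L0h5.TV.B2

/-!
# The truncated abstract bound with twists
-/

set_option autoImplicit false
set_option linter.unusedSectionVars false

namespace Pool.Agent.L0h5.TV

open Finset Pool.Agent.W262.RK Pool.Agent.W262.RK.AT Pool.Agent.L0h5.AG

open Pool.Agent.L0h5.TT (psi LL S_COEF)
open Pool.Agent.L0h5.TU

variable {ι J : Type} [Fintype ι] [DecidableEq ι] [Fintype J] [DecidableEq J]

variable {g : ι → ℕ → ℝ} {e : ι → ℝ} {L : ι → ι → Bool} {c z : ℕ} {C : ℝ} {t : ι → J}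
  {F : (J → ℕ) → ℝ}

/-- the case with twists -/
lemma osc_case (hCO : S_COEF) (hB : Bw g e c z C) {Cg : ℝ} (hCg : 0 ≤ Cg)
    (hg2 : ∀ i (y : ℕ), z < y → ∑ p ∈ PS z y, |g i p| ≤ e i * Real.log (Real.log y) + Cg)
    {o : ι → Bool} (hT : ∀ i, Tws z (g i) (o i)) (hL : ∀ i, L i i = false)
    {δ : ℝ} (hδ0 : 0 < δ) (hδ1 : δ < 1) (A : ℕ) {K : ℝ} (π : ι → Fin 4) (h3 : ∀ k, π k ≠ 3)
    (hun : ∀ i j, π i = 2 → π j = 2 → L i j = L j i) {O : Finset ι}
    {ρ : J → ℝ} (hρ : ∀ a, 0 < ρ a) (hρO : ∀ i ∈ O, ρ (t i) ≤ 1)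
    (hOO : ∀ i ∈ O, ∀ j ∈ O, L i j = false)
    (hlink : ∀ j, π j ≠ 2 → j ∉ O → ∃ i, π i = 2 ∧ i ∈ O ∧ L i j ≠ L j i)
    (htw : ∀ ε : ι → Bool, ∃ i, π i = 2 ∧ i ∈ O ∧
      decide (Odd ((univ.filter (fun k => π k = 2)).filter
        (fun j => j ∉ O ∧ L i j = true ∧ ε j = true)).card) ≠ o i)
    (hK : ∀ i, π i = 2 → i ∈ O → ∑ j ∈ (univ.filter (fun k => π k = 2)).erase i,
      e j * ρ (t j) - ∑ a, psi δ (ρ a) < K) :
    ∃ C' : ℝ, ∀ y, z < y → ∀ (F : (J → ℕ) → ℝ) (N : ℕ), (∀ n, |F n| ≤ 1) →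
      (∀ n, F n ≠ 0 → WinJ δ (LL y) n) → (∀ n, F n ≠ 0 → ∀ a, n a ≤ N) →
      (N : ℝ) + 1 ≤ 4 * Real.log (VV A (Real.log y)) →
      |∑ d ∈ Fintype.piFinset (fun b => cell z y (VV A (Real.log y)) (YY A (Real.log y)) (π b)),
        HF g L t F d| ≤ C' * (Real.log y) ^ K := by
  classical
  have hC0 : 0 ≤ C := zero_le_one.trans hB.C1
  obtain ⟨U, hU⟩ : ∃ U : Finset ι, U = univ.filter (fun k => π k = 2) := ⟨_, rfl⟩
  obtain ⟨Ψ, hΨ⟩ : ∃ Ψ : ℝ, Ψ = ∑ a, psi δ (ρ a) := ⟨_, rfl⟩
  obtain ⟨S, hS⟩ : ∃ S : ι → ℝ, S = fun i => ∑ j ∈ U.erase i, e j * ρ (t j) := ⟨_, rfl⟩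
  have hpos : ∀ i, 0 < e i * ρ (t i) := fun i => mul_pos (hB.e0 i) (hρ _)
  obtain ⟨η, hη⟩ : ∃ η : ι → ℝ, η = fun i => if π i = 2 ∧ i ∈ O then (K - (S i - Ψ)) / 2 else 1 :=
    ⟨_, rfl⟩
  have hη0 : ∀ i, 0 < η i := by
    intro i
    rw [hη]
    simp only
    split_ifs with h
    · have := hK i h.1 h.2
      rw [← hU, ← hΨ] at this
      rw [hS]
      simp only
      linarith
    · exact one_pos
  choose C2 hC20 hC2 using fun i => tws_V hB.z2 (hB.e0 i) (hg2 i) (hT i) A (Fintype.card ι) (hη0 i)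
  obtain ⟨M, hM⟩ : ∃ M : ℕ, ∑ i : ι, e i * ρ (t i) ≤ M := exists_nat_ge _
  choose C4 hC40 hC4 using fun i => log_VV_pow_le A (M + 1) (hη0 i)
  obtain ⟨D, hD⟩ : ∃ D : ℝ, D = ∏ i : ι, Real.exp (ρ (t i) * (Cg + 2)) := ⟨_, rfl⟩
  have hE1 : ∀ i : ι, 1 ≤ Real.exp (ρ (t i) * (Cg + 2)) := fun i =>
    Real.one_le_exp (by have := hρ (t i); positivity)
  have hD1 : 1 ≤ D := by
    rw [hD]
    calc (1 : ℝ) = ∏ i : ι, (1 : ℝ) := by simp
      _ ≤ _ := prod_le_prod (fun _ _ => zero_le_one) fun i _ => hE1 i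
  have hD0 : 0 < D := by linarith
  obtain ⟨G, hG⟩ : ∃ G : ι → ℝ, G = fun i => D * ((4 * Real.exp (C2 i + 1) + 3 * C) * C4 i) :=
    ⟨_, rfl⟩
  have hG0 : ∀ i, 0 ≤ G i := by
    intro i
    rw [hG]
    simp only
    have := hC40 i
    positivity
  refine ⟨∑ i, G i, fun y hy F N hF hW hN hNl => ?_⟩
  have hly := one_le_log hB.z2 hy
  have hly0 : 0 < Real.log y := by linarith
  obtain ⟨l, hl⟩ : ∃ l : ℝ, l = Real.log y := ⟨_, rfl⟩
  obtain ⟨V, hV⟩ : ∃ V : ℕ, V = VV A (Real.log y) := ⟨_, rfl⟩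
  obtain ⟨Y, hY⟩ : ∃ Y : ℕ, Y = YY A (Real.log y) := ⟨_, rfl⟩
  have hV3 : 3 ≤ V := by rw [hV]; exact three_le_VV A _
  have hVY : V ≤ Y := by rw [hV, hY]; exact VV_le_YY A _
  have hlV : 1 ≤ Real.log V := by rw [hV]; exact one_le_log_VV A _
  have hlV0 : 0 < Real.log V := by linarith
  obtain ⟨f, hf⟩ : ∃ f : ι → ℕ → ℝ, f = fun b m => ah g b m * ρ (t b) ^ m.primeFactors.card :=
    ⟨_, rfl⟩
  have hf0 : ∀ b m, 0 ≤ f b m := by
    intro b m
    rw [hf]
    exact mul_nonneg (ah_nonneg _ _ _) (pow_nonneg (hρ _).le _)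
  obtain ⟨s, hs⟩ : ∃ s : ι → Finset ℕ, s = fun b => cell z y V Y (π b) := ⟨_, rfl⟩
  obtain ⟨T, hTd⟩ : ∃ T : ι → ℝ, T = fun b => ∑ m ∈ s b, f b m := ⟨_, rfl⟩
  have hT0 : ∀ b, 0 ≤ T b := by
    intro b
    rw [hTd]
    exact sum_nonneg fun m _ => hf0 b m
  obtain ⟨Q, hQ⟩ : ∃ Q : ℝ, Q = Real.exp (-(LL y * Ψ)) := ⟨_, rfl⟩
  have hQ0 : 0 < Q := by rw [hQ]; exact Real.exp_pos _
  obtain ⟨Br, hBr⟩ : ∃ Br : ι → ℝ, Br = fun i => (N + 1) * Real.exp (η i * LL y + C2 i + 1) +
    C * Real.log V + C * Real.exp (-(Real.log Y / Real.log y)) * (Real.log y) ^ 2 := ⟨_, rfl⟩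
  have hBr0 : ∀ i, 0 ≤ Br i := by
    intro i
    rw [hBr]
    simp only
    positivity
  obtain ⟨UO, hUO⟩ : ∃ UO : Finset ι, UO = univ.filter (fun i => π i = 2 ∧ i ∈ O) := ⟨_, rfl⟩
  -- the sum
  have hmain : |∑ d ∈ Fintype.piFinset s, HF g L t F d| ≤
      ∑ i ∈ UO, Q * ((∏ b ∈ univ.erase i, T b) * Br i) := by
    rw [piFinset_split (fun b => b ∈ O) s]
    refine (abs_sum_le_sum_abs _ _).trans ?_
    have hstep : ∀ d ∈ Fintype.piFinset (fun b => if b ∈ O then {1} else s b),
        |∑ x ∈ Fintype.piFinset (fun b => if b ∈ O then s b else {d b}), HF g L t F x| ≤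
        ∑ i ∈ UO, Q * ((∏ b ∈ univ.erase i, (if b ∈ O then T b else f b (d b))) * Br i) := by
      intro d hd
      have hterm : ∀ i ∈ UO, 0 ≤ Q * ((∏ b ∈ univ.erase i, (if b ∈ O then T b else f b (d b))) *
          Br i) := by
        intro i _
        refine mul_nonneg hQ0.le (mul_nonneg (prod_nonneg fun b _ => ?_) (hBr0 i))
        split_ifs
        · exact hT0 b
        · exact hf0 b _
      have hdO : ∀ b ∈ O, d b = 1 := by
        intro b hb
        have := Fintype.mem_piFinset.1 hd b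
        rwa [if_pos hb, mem_singleton] at this
      have hds : ∀ b, b ∉ O → d b ∈ cell z y V Y (π b) := by
        intro b hb
        have := Fintype.mem_piFinset.1 hd b
        rw [if_neg hb, hs] at this
        exact this
      have hdd : ∀ b, d b ∈ (PP z y).divisors := by
        intro b
        by_cases hb : b ∈ O
        · rw [hdO b hb]
          exact one_mem_dv z y
        · exact cell_sub _ _ _ _ _ (hds b hb)
      by_cases hcp : ∀ i j, i ≠ j → (d i).Coprime (d j)
      · have hd0 : ∀ b, π b = 0 → d b = 1 := by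
          intro b hb
          by_cases hbO : b ∈ O
          · exact hdO b hbO
          · have := hds b hbO
            rw [hb] at this
            exact cell_zero this
        have hd1 : ∀ b, b ∉ O → π b = 1 → 1 < d b := by
          intro b hbO hb
          have := hds b hbO
          rw [hb] at this
          exact (cell_one this).1
        obtain ⟨i, hi2, hiO, hgood⟩ := exists_good hL h3 hun hOO hlink htw hd0 hd1 hdO
        have hdV : ∀ b, b ∉ O → π b ≠ 2 → d b ≤ VV A (Real.log y) := by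
          intro b hbO hb2
          rw [← hV]
          have hb01 : π b = 0 ∨ π b = 1 := by
            have k3 := h3 b
            revert hb2 k3
            generalize π b = r
            revert r
            decide
          rcases hb01 with h | h
          · rw [hd0 b h]
            omega
          · have := hds b hbO
            rw [h] at this
            exact (cell_one this).2
        have h1 := osc_inner (t := t) hCO hB hF hN hL hy hδ0 hδ1 hρ hW h3 hun hOO hdd hdV hcp hi2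
          hiO (hρO i hiO) hgood (B := η i * LL y + C2 i)
          (fun r hr1 hr2 hr3 τ hτ => hC2 i y hy r hr1 hr2 hr3 τ hτ)
        rw [← hV, ← hY, ← hΨ, ← hQ] at h1
        have hiUO : i ∈ UO := by
          rw [hUO, mem_filter]
          exact ⟨mem_univ i, hi2, hiO⟩
        refine le_trans ?_ (single_le_sum (f := fun i => Q * ((∏ b ∈ univ.erase i,
          (if b ∈ O then T b else f b (d b))) * Br i)) hterm hiUO)
        have e1 : (fun b => if b ∈ O then s b else {d b}) =
            fun b => if b ∈ O then cell z y V Y (π b) else {d b} := by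
          rw [hs]
        have e2 : ∏ b ∈ univ.erase i, (if b ∈ O then T b else f b (d b)) =
            ∏ b ∈ univ.erase i, (if b ∈ O then ∑ m ∈ cell z y V Y (π b),
              (ah g b m * ρ (t b) ^ m.primeFactors.card) else
              (ah g b (d b) * ρ (t b) ^ (d b).primeFactors.card)) := by
          rw [hTd, hf, hs]
        rw [e1, e2, hBr]
        exact h1
      · rw [sum_eq_zero, abs_zero]
        · exact sum_nonneg hterm
        · intro x hx
          push Not at hcp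
          obtain ⟨i, j, hij, hnc⟩ := hcp
          have hiO : i ∉ O := fun h => hnc (by rw [hdO i h]; exact Nat.coprime_one_left _)
          have hjO : j ∉ O := fun h => hnc (by rw [hdO j h]; exact Nat.coprime_one_right _)
          have hxi := Fintype.mem_piFinset.1 hx i
          have hxj := Fintype.mem_piFinset.1 hx j
          rw [if_neg hiO, mem_singleton] at hxi
          rw [if_neg hjO, mem_singleton] at hxj
          unfold HF HG
          rw [if_neg, zero_mul]
          intro h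
          have := h i j hij
          rw [hxi, hxj] at this
          exact hnc this
    refine (sum_le_sum hstep).trans (le_of_eq ?_)
    rw [sum_comm]
    refine sum_congr rfl fun i hi => ?_
    rw [hUO, mem_filter] at hi
    rw [← mul_sum, ← sum_mul, osc_outer hi.2.2 s T f (fun b => by rw [hTd])]
  rw [← hV, ← hY, ← hs]
  refine hmain.trans ?_
  -- the sums over the cells
  have hTb : ∀ b, T b ≤ Real.exp (ρ (t b) * (Cg + 2)) *
      ((if π b = 2 then l ^ (e b * ρ (t b)) else 1) * (Real.log V) ^ (e b * ρ (t b))) := by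
    intro b
    rw [hTd, hf, hs]
    simp only
    have h5 : (1 : ℝ) ≤ (Real.log V) ^ (e b * ρ (t b)) := Real.one_le_rpow hlV (hpos b).le
    by_cases hi : π b = 2
    · rw [if_pos hi]
      calc ∑ m ∈ cell z y V Y (π b), ah g b m * ρ (t b) ^ m.primeFactors.card
          ≤ ∑ m ∈ (PP z y).divisors, ah g b m * ρ (t b) ^ m.primeFactors.card :=
            sum_le_sum_of_subset_of_nonneg (cell_sub _ _ _ _ _) fun m _ _ =>
              mul_nonneg (ah_nonneg _ _ _) (pow_nonneg (hρ _).le _)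
        _ ≤ Real.exp (ρ (t b) * (Cg + 2)) * l ^ (e b * ρ (t b)) := by
            rw [hl]
            exact cs_pow hB hg2 b (hρ _) hy
        _ ≤ Real.exp (ρ (t b) * (Cg + 2)) * (l ^ (e b * ρ (t b)) *
            (Real.log V) ^ (e b * ρ (t b))) := by
            refine mul_le_mul_of_nonneg_left (le_mul_of_one_le_right ?_ h5) (Real.exp_pos _).le
            rw [hl]
            positivity
    · rw [if_neg hi, one_mul]
      exact cs_pow_low hB hCg hg2 b (hρ _) hV3 (h3 b) hi
  have hl1 : 1 ≤ l := by rw [hl]; exact hly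
  have hl0 : 0 < l := by linarith
  have hprod : ∀ i, ∏ b ∈ univ.erase i, T b ≤ D * (l ^ S i * (Real.log V) ^ M) := by
    intro i
    refine (prod_le_prod (fun b _ => hT0 b) fun b _ => hTb b).trans ?_
    rw [prod_mul_distrib, prod_mul_distrib, prod_ite, prod_const_one, mul_one,
      ← Real.rpow_sum_of_pos hl0, ← Real.rpow_sum_of_pos hlV0]
    have e1 : (univ.erase i).filter (fun b => π b = 2) = U.erase i := by
      ext b
      rw [hU]
      simp only [mem_filter, mem_erase, mem_univ, and_true, true_and]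
    have e2 : ∏ b ∈ univ.erase i, Real.exp (ρ (t b) * (Cg + 2)) ≤ D := by
      rw [hD]
      exact prod_le_prod_of_subset_of_one_le (erase_subset _ _) (fun b _ => (Real.exp_pos _).le)
        fun b _ _ => hE1 b
    have e3 : ∑ b ∈ univ.erase i, e b * ρ (t b) ≤ M := by
      refine le_trans ?_ hM
      exact sum_le_sum_of_subset_of_nonneg (erase_subset _ _) fun b _ _ => (hpos b).le
    have e4 : (Real.log V) ^ (∑ b ∈ univ.erase i, e b * ρ (t b)) ≤ (Real.log V) ^ M := by
      rw [← Real.rpow_natCast]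
      exact Real.rpow_le_rpow_of_exponent_le hlV e3
    have e5 : l ^ (∑ b ∈ (univ.erase i).filter (fun b => π b = 2), e b * ρ (t b)) = l ^ S i := by
      rw [e1, hS]
    rw [e5]
    refine mul_le_mul e2 (mul_le_mul_of_nonneg_left e4 (by positivity)) (by positivity) hD0.le
  have hBrb : ∀ i, Br i ≤ (4 * Real.exp (C2 i + 1) + 3 * C) * (l ^ η i * Real.log V) := by
    intro i
    have e2 : (1 : ℝ) ≤ l ^ η i := Real.one_le_rpow hl1 (hη0 i).le
    have e1 : Real.exp (η i * LL y + C2 i + 1) = l ^ η i * Real.exp (C2 i + 1) := by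
      rw [add_assoc, Real.exp_add, Real.rpow_def_of_pos hl0, mul_comm (η i), hl]
      rfl
    have hlY : l ≤ Real.log Y / Real.log y := by
      rw [le_div_iff₀ hly0, hY, hl]
      have := log_YY_ge A (Real.log y)
      nlinarith
    have e3 : Real.exp (-(Real.log Y / Real.log y)) * (Real.log y) ^ 2 ≤ 2 := by
      have a1 : Real.exp (-(Real.log Y / Real.log y)) ≤ Real.exp (-l) :=
        Real.exp_le_exp.2 (by linarith)
      have a2 := exp_neg_pow 2 hl1
      have a3 : ((Nat.factorial 2 : ℕ) : ℝ) = 2 := by norm_num [Nat.factorial]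
      rw [a3, hl] at a2
      rw [hl] at a1
      exact (mul_le_mul_of_nonneg_right a1 (by positivity)).trans a2
    have e4 : C * Real.exp (-(Real.log Y / Real.log y)) * (Real.log y) ^ 2 ≤ C * 2 := by
      rw [mul_assoc]
      exact mul_le_mul_of_nonneg_left e3 hC0
    have e5 : (1 : ℝ) ≤ l ^ η i * Real.log V := one_le_mul_of_one_le_of_one_le e2 hlV
    have e7 : Real.log V ≤ l ^ η i * Real.log V := le_mul_of_one_le_left hlV0.le e2
    have hNl' : (N : ℝ) + 1 ≤ 4 * Real.log V := by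
      rw [hV]
      exact hNl
    have e6 : (N + 1) * Real.exp (η i * LL y + C2 i + 1) ≤
        4 * Real.exp (C2 i + 1) * (l ^ η i * Real.log V) := by
      rw [e1]
      calc (N + 1) * (l ^ η i * Real.exp (C2 i + 1)) ≤
            (4 * Real.log V) * (l ^ η i * Real.exp (C2 i + 1)) :=
            mul_le_mul_of_nonneg_right hNl' (by positivity)
        _ = _ := by ring
    have e8 := mul_le_mul_of_nonneg_left e7 hC0
    have e9 := mul_le_mul_of_nonneg_left e5 (by positivity : 0 ≤ C * 2)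
    rw [hBr]
    simp only
    calc _ ≤ 4 * Real.exp (C2 i + 1) * (l ^ η i * Real.log V) + C * (l ^ η i * Real.log V) +
          C * 2 * (l ^ η i * Real.log V) := by linarith
      _ = _ := by ring
  have hQl : Q = l ^ (-Ψ) := by
    rw [hQ, Real.rpow_def_of_pos hl0, hl]
    congr 1
    unfold Pool.Agent.L0h5.TT.LL
    ring
  have hfin : ∀ i ∈ UO, Q * ((∏ b ∈ univ.erase i, T b) * Br i) ≤ G i * l ^ K := by
    intro i hi
    rw [hUO, mem_filter] at hi
    have hηi : η i = (K - (S i - Ψ)) / 2 := by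
      rw [hη]
      simp only
      rw [if_pos hi.2]
    have k1 : (∏ b ∈ univ.erase i, T b) * Br i ≤ (D * (l ^ S i * (Real.log V) ^ M)) *
        ((4 * Real.exp (C2 i + 1) + 3 * C) * (l ^ η i * Real.log V)) :=
      mul_le_mul (hprod i) (hBrb i) (hBr0 i) (by positivity)
    have k2 : (Real.log V) ^ (M + 1) ≤ C4 i * l ^ η i := by
      rw [hV, hl]
      exact hC4 i (Real.log y) hly
    calc Q * ((∏ b ∈ univ.erase i, T b) * Br i) ≤ Q * ((D * (l ^ S i * (Real.log V) ^ M)) *
        ((4 * Real.exp (C2 i + 1) + 3 * C) * (l ^ η i * Real.log V))) :=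
          mul_le_mul_of_nonneg_left k1 hQ0.le
      _ = D * (4 * Real.exp (C2 i + 1) + 3 * C) * (l ^ (-Ψ) * (l ^ S i * l ^ η i)) *
          (Real.log V) ^ (M + 1) := by rw [hQl]; ring
      _ ≤ D * (4 * Real.exp (C2 i + 1) + 3 * C) * (l ^ (-Ψ) * (l ^ S i * l ^ η i)) *
          (C4 i * l ^ η i) := mul_le_mul_of_nonneg_left k2 (by positivity)
      _ = G i * (l ^ (-Ψ) * (l ^ S i * (l ^ η i * l ^ η i))) := by
          rw [hG]
          ring
      _ = G i * l ^ K := by
          rw [← Real.rpow_add hl0, ← Real.rpow_add hl0, ← Real.rpow_add hl0]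
          congr 2
          rw [hηi]
          ring
  refine (sum_le_sum hfin).trans ?_
  rw [← sum_mul, ← hl]
  refine mul_le_mul_of_nonneg_right ?_ (by positivity)
  exact sum_le_sum_of_subset_of_nonneg (subset_univ _) fun i _ _ => hG0 i

/-- all patterns -/
lemma patT (hCO : S_COEF) (hB : Bw g e c z C) {Cg : ℝ} (hCg : 0 ≤ Cg)
    (hg2 : ∀ i (y : ℕ), z < y → ∑ p ∈ PS z y, |g i p| ≤ e i * Real.log (Real.log y) + Cg)
    {o : ι → Bool} (hT : ∀ i, Tws z (g i) (o i))
    {C2 : ℝ} {E2 : ℕ} (hC2 : 0 ≤ C2) (h2 : BW C2 E2)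
    (hL : ∀ i, L i i = false) {K δ : ℝ} (hK0 : 0 ≤ K) (hδ0 : 0 < δ) (hδ1 : δ < 1)
    (hK : ∀ U : Finset ι, (∀ i ∈ U, ∀ j ∈ U, L i j = L j i) → CondU t e L o K δ U)
    (hz : 2 ^ Fintype.card ι ≤ z) {n y0 : ℕ}
    (hX : XB g e z (6 * (Fintype.card ι + 2 * E2 + 1)) n y0)
    (hX' : XB (fun i p => -g i p) e z (6 * (Fintype.card ι + 2 * E2 + 1)) n y0)
    (π : ι → Fin 4) : ∃ C' : ℝ, ∀ y, z < y → ∀ F : (J → ℕ) → ℝ, (∀ n, |F n| ≤ 1) →
      (∀ n, F n ≠ 0 → WinJ δ (LL y) n) →
      |∑ d ∈ Fintype.piFinset (fun b => cell z y (VV (6 * (Fintype.card ι + 2 * E2 + 1))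
        (Real.log y)) (YY (6 * (Fintype.card ι + 2 * E2 + 1)) (Real.log y)) (π b)),
          HF g L t F d| ≤ C' * (Real.log y) ^ K := by
  set A := 6 * (Fintype.card ι + 2 * E2 + 1) with hA
  -- the bound for the number of the primes
  have hNN : ∀ y, z < y → ∀ F : (J → ℕ) → ℝ, (∀ n, F n ≠ 0 → WinJ δ (LL y) n) →
      ∃ N : ℕ, (∀ n, F n ≠ 0 → ∀ a, n a ≤ N) ∧ (N : ℝ) + 1 ≤ 4 * Real.log y ∧
        (N : ℝ) + 1 ≤ 4 * Real.log (VV A (Real.log y)) := by
    intro y hy F hW
    have hly := one_le_log hB.z2 hy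
    have hly0 : 0 < Real.log y := by linarith
    have hL0 : 0 ≤ LL y := Real.log_nonneg hly
    refine ⟨⌊(1 + δ) * LL y⌋₊, fun n hn a => Nat.le_floor (hW n hn a).2, ?_, ?_⟩
    · have h1 := Nat.floor_le (by positivity : 0 ≤ (1 + δ) * LL y)
      have h2 : LL y ≤ Real.log y - 1 := Real.log_le_sub_one_of_pos hly0
      nlinarith
    · have h1 := Nat.floor_le (by positivity : 0 ≤ (1 + δ) * LL y)
      have h2 : LL y ≤ Real.log (VV A (Real.log y)) := by
        unfold Pool.Agent.L0h5.TT.LL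
        refine Real.log_le_log hly0 (le_trans ?_ (VV_ge A (Real.log y)))
        exact le_self_pow₀ hly (by omega)
      have h3 := one_le_log_VV A (Real.log y)
      nlinarith
  by_cases h3 : ∃ k, π k = 3
  · obtain ⟨k, hk⟩ := h3
    obtain ⟨C', hC'⟩ := tail_caseF (t := t) (L := L) hB A hK0 π hk
    exact ⟨C', fun y hy F hF _ => hC' y hy F hF⟩
  push Not at h3
  by_cases hl : ∃ i j, π i = 2 ∧ π j = 2 ∧ L i j ≠ L j i
  · obtain ⟨i, j, hi, hj, hij⟩ := hl
    obtain ⟨C', hC'⟩ := link_caseF (t := t) hB hC2 h2 hL (le_refl A) hK0 π hi hj hij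
    refine ⟨C', fun y hy F hF hW => ?_⟩
    obtain ⟨N, hN1, hN2, -⟩ := hNN y hy F hW
    exact hC' y hy F N hF hN1 hN2
  push Not at hl
  rcases hK (univ.filter (fun k => π k = 2)) (fun i hi j hj =>
    hl i j (mem_filter.1 hi).2 (mem_filter.1 hj).2) with ⟨hS, hmax⟩ | ⟨ρ, hρ, hρK⟩ |
      ⟨O, ρ, hρ, hρO, hOO, hlink, htw, hρK⟩
  · by_cases h1 : ∃ j, π j = 1
    · obtain ⟨C', hC'⟩ := max_caseF (t := t) hCO hB hL A hK0 π h3
        (fun i j hi hj => hl i j hi hj) (fun j hj => by
          obtain ⟨i, hi, hij⟩ := hmax j (by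
            rw [mem_filter, hj]
            rintro ⟨-, h⟩
            exact absurd h (by decide))
          exact ⟨i, (mem_filter.1 hi).2, hij⟩) hS hz hX hX'
      refine ⟨C', fun y hy F hF hW => ?_⟩
      obtain ⟨N, hN1, -, hN3⟩ := hNN y hy F hW
      exact hC' y hy F N hF hN1 hN3
    · push Not at h1
      obtain ⟨C', hC'⟩ := diag_caseF (t := t) (L := L) hB A π (fun k => by
        have a1 := h1 k
        have a3 := h3 k
        revert a1 a3
        generalize π k = r
        revert r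
        decide) hS
      exact ⟨C', fun y hy F hF _ => hC' y hy F hF⟩
  · exact atyp_case hB hCg hg2 hδ0 hδ1 A π h3 hρ hρK
  · obtain ⟨C', hC'⟩ := osc_case (t := t) hCO hB hCg hg2 hT hL hδ0 hδ1 A (K := K) π h3
      (fun i j hi hj => hl i j hi hj) (O := O) hρ hρO hOO
      (fun j hj hjO => by
        obtain ⟨i, hi, hiO, hij⟩ := hlink j (by
          rw [mem_filter]
          exact fun h => hj h.2) hjO
        exact ⟨i, (mem_filter.1 hi).2, hiO, hij⟩)
      (fun ε => by
        obtain ⟨i, hi, hiO, hij⟩ := htw ε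
        exact ⟨i, (mem_filter.1 hi).2, hiO, hij⟩)
      (fun i hi hiO => hρK i (by rw [mem_filter]; exact ⟨mem_univ i, hi⟩) hiO)
    refine ⟨C', fun y hy F hF hW => ?_⟩
    obtain ⟨N, hN1, -, hN3⟩ := hNN y hy F hW
    exact hC' y hy F N hF hW hN1 hN3

/-- **The truncated abstract bound with twists.** -/
theorem agT (hCO : S_COEF) : S3_AG := by
  classical
  intro ι J _ _ _ _ t e L o c K δ he hL hK0 hδ0 hδ1 hK
  obtain ⟨C2, E2, h2⟩ := Pool.Agent.W655.RK.blw_of (_root_.W37.RK.bl_of Pool.Agent.W505.RK.ls)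
  obtain ⟨zF, hF⟩ := Pool.Agent.W655.RK.full (1 / 2) c (by norm_num) le_rfl
  set A := 6 * (Fintype.card ι + 2 * E2 + 1) with hA
  obtain ⟨zE, hzE⟩ : ∃ zE : ℕ, ∀ i, 128 * (Fintype.card ι * (A : ℝ)) ≤ zE * e i := by
    choose zi hzi using fun i => exists_nat_ge (128 * (Fintype.card ι * (A : ℝ)) / e i)
    refine ⟨univ.sup zi, fun i => ?_⟩
    have h1 : (zi i : ℝ) ≤ (univ.sup zi : ℕ) := by exact_mod_cast le_sup (f := zi) (mem_univ i)
    have h3 := (hzi i).trans h1
    rwa [div_le_iff₀ (he i)] at h3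
  refine ⟨zF + zE + 2 * c + 2 + 2 ^ Fintype.card ι, fun z hz g Cg0 hg1 hg2' hT => ?_⟩
  obtain ⟨Cg, hCg⟩ : ∃ Cg : ℝ, Cg = |Cg0| := ⟨_, rfl⟩
  have hCg0 : 0 ≤ Cg := by rw [hCg]; exact abs_nonneg _
  have hg2 : ∀ i (y : ℕ), z < y → ∑ p ∈ PS z y, |g i p| ≤ e i * Real.log (Real.log y) + Cg :=
    fun i y hy => (hg2' i y hy).trans (by have := le_abs_self Cg0; linarith)
  have hpow : 0 < 2 ^ Fintype.card ι := by positivity
  obtain ⟨CF, hF1, hF2, hF3⟩ := hF z (by omega)
  have hz2 : 2 ≤ z := by omega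
  have hzc : 2 * c + 2 ≤ z := by omega
  set C : ℝ := 1 + 2 * |CF| + Real.exp (Cg + 2) with hC
  have hCF : CF ≤ C := by
    have := le_abs_self CF
    have := abs_nonneg CF
    have := Real.exp_pos (Cg + 2)
    linarith
  have hle : ∀ i (y m : ℕ), m ∈ (PP z y).divisors → ah g i m ≤ gw (1 / 2) c m * hh m :=
    fun i y m hm => mul_le_mul_of_nonneg_right (abs_gg_le_gw hg1 i hm) (hh_nonneg _)
  have hB : Bw g e c z C :=
    { z2 := hz2
      zc := hzc
      C1 := by
        have := abs_nonneg CF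
        have := Real.exp_pos (Cg + 2)
        linarith
      g1 := hg1
      e0 := he
      F0 := fun i y hy => by
        have hly := one_le_log hz2 hy
        refine (sum_le_sum fun m hm => hle i y m hm).trans ((hF1 y hy).trans ?_)
        have h3 : (Real.log y) ^ (1 / 2 : ℝ) ≤ Real.log y := by
          calc (Real.log y) ^ (1 / 2 : ℝ) ≤ (Real.log y) ^ (1 : ℝ) :=
                Real.rpow_le_rpow_of_exponent_le hly (by norm_num)
            _ = Real.log y := Real.rpow_one _
        have h4 : 0 ≤ (Real.log y) ^ (1 / 2 : ℝ) := by positivity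
        have hC0 : 0 ≤ C := by
          have := abs_nonneg CF
          have := Real.exp_pos (Cg + 2)
          linarith
        exact (mul_le_mul_of_nonneg_right hCF h4).trans (mul_le_mul_of_nonneg_left h3 hC0)
      F1 := fun i y hy => by
        refine (f1_of hz2 hzc (hg1 i) (hg2 i) y hy).trans ?_
        refine mul_le_mul_of_nonneg_right ?_ (Real.rpow_nonneg (Real.log_natCast_nonneg y) _)
        have := abs_nonneg CF
        linarith
      F2 := fun i y V hy hV => by
        refine (sum_le_sum fun m hm => hle i y m (mem_filter.1 hm).1).trans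
          ((hF2 y V hy hV).trans ?_)
        have hC0 : 0 ≤ C := by
          have := abs_nonneg CF
          have := Real.exp_pos (Cg + 2)
          linarith
        have hlV : 1 / 4 ≤ Real.log V := by
          have h1 : Real.log 2 ≤ Real.log V :=
            Real.log_le_log (by norm_num) (by exact_mod_cast hV)
          have h2 := Real.log_two_gt_d9
          linarith
        have h3 : (Real.log V) ^ (1 / 2 : ℝ) ≤ 2 * Real.log V := by
          rw [← Real.sqrt_eq_rpow, Real.sqrt_le_left (by linarith)]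
          nlinarith
        have h4 : 0 ≤ (Real.log V) ^ (1 / 2 : ℝ) := by positivity
        have h5 : 0 ≤ Real.log V := by linarith
        have h6 := Real.exp_pos (Cg + 2)
        calc CF * (Real.log V) ^ (1 / 2 : ℝ) ≤ |CF| * (Real.log V) ^ (1 / 2 : ℝ) :=
              mul_le_mul_of_nonneg_right (le_abs_self _) h4
          _ ≤ |CF| * (2 * Real.log V) := mul_le_mul_of_nonneg_left h3 (abs_nonneg _)
          _ = 2 * |CF| * Real.log V := by ring
          _ ≤ C * Real.log V := mul_le_mul_of_nonneg_right (by linarith) h5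
      F3 := fun i y Y hy hY => by
        refine (sum_le_sum fun m hm => hle i y m (mem_filter.1 hm).1).trans
          ((hF3 y Y hy hY).trans ?_)
        apply mul_le_mul_of_nonneg_right _ (by positivity)
        exact mul_le_mul_of_nonneg_right hCF (Real.exp_pos _).le }
  have h2' : AT.BW |C2| E2 := fun V Y hV hVY a b ha hb ha' hb' =>
    (h2 V Y hV hVY a b ha hb ha' hb').trans (by
      apply mul_le_mul_of_nonneg_right _ (by positivity)
      exact mul_le_mul_of_nonneg_right (le_abs_self C2)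
        (pow_nonneg (Real.log_natCast_nonneg Y) _))
  -- the exceptional sets
  have hex : ∀ (g' : ι → ℕ → ℝ), (∀ i p, |g' i p| = |g i p|) → ∀ i, ∃ n y0 : ℕ,
      ∀ y, y0 ≤ y → z < y → ∀ t : Bool, ∀ S : Finset ℕ,
      (∀ r ∈ S, 1 ≤ r ∧ r ≤ VV A (Real.log y) ^ Fintype.card ι ∧ Squarefree r ∧
        (∀ p : ℕ, p.Prime → p ∣ r → z < p) ∧
        e i / 2 * Real.log (Real.log y) < ∑ p ∈ PS z y, g' i p * ps r t p) → S.card ≤ n := by
    intro g' hg' i
    refine exc (g' i) (e i) Cg (he i) z hz2 (fun p hp hpz => ?_) (fun y hy => ?_)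
      A (Fintype.card ι) ?_
    · rw [hg']
      refine (hg1 i p hp hpz).trans ?_
      have h3 : (2 * c + 3 : ℝ) ≤ p := by exact_mod_cast (by omega : 2 * c + 3 ≤ p)
      have hc0 : (0 : ℝ) ≤ c := Nat.cast_nonneg c
      rw [div_le_div_iff₀ (by linarith) (by linarith)]
      linarith
    · simp only [hg']
      exact hg2 i y hy
    · refine (hzE i).trans (mul_le_mul_of_nonneg_right ?_ (he i).le)
      exact_mod_cast (by omega : zE ≤ z)
  choose ni yi hni using hex g (fun _ _ => rfl)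
  choose ni' yi' hni' using hex (fun i p => -g i p) (fun _ _ => abs_neg _)
  set n0 := univ.sup ni + univ.sup ni' with hn0
  set y00 := univ.sup yi + univ.sup yi' with hy00
  have hX : XB g e z A n0 y00 := by
    intro y hy hzy i τ
    have h3 : yi i ≤ y := (le_sup (f := yi) (mem_univ i)).trans (by omega)
    have h4 : ni i ≤ univ.sup ni := le_sup (f := ni) (mem_univ i)
    refine (hni i y h3 hzy τ _ fun r hr => ?_).trans (by omega)
    obtain ⟨⟨h4, h5⟩, h6, h7, h8⟩ := mem_Ex.1 hr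
    exact ⟨h4, h5, h6, h7, h8⟩
  have hX' : XB (fun i p => -g i p) e z A n0 y00 := by
    intro y hy hzy i τ
    have h3 : yi' i ≤ y := (le_sup (f := yi') (mem_univ i)).trans (by omega)
    have h4 : ni' i ≤ univ.sup ni' := le_sup (f := ni') (mem_univ i)
    refine (hni' i y h3 hzy τ _ fun r hr => ?_).trans (by omega)
    obtain ⟨⟨h4, h5⟩, h6, h7, h8⟩ := mem_Ex.1 hr
    exact ⟨h4, h5, h6, h7, h8⟩
  choose C' hC' using fun π : ι → Fin 4 => patT hCO hB hCg0 hg2 hT (abs_nonneg C2) h2' hL hK0 hδ0 hδ1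
    hK (by omega) hX hX' π
  refine ⟨∑ π, C' π, fun y hy F hF hW => ?_⟩
  rw [totalF_eq, AT.patterns z y (AT.VV A (Real.log y)) (AT.YY A (Real.log y)), sum_mul]
  exact (abs_sum_le_sum_abs _ _).trans (sum_le_sum fun π _ => hC' π y hy F hF hW)

end Pool.Agent.L0h5.TV
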